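import Pool.Agent.helper62.DP8.Spec

/-! # Project sq8: module COL -/

set_option autoImplicit false

namespace Pool.Agent.helper62.DP8

theorem COL : COL_stmt := by
  classical
  intro V _ H W R L hc v x hx
  let L' : V → Finset W := fun u => (L u).filter (fun y => u = v ∨ ¬ R x y)
  have hmem : ∀ u y, y ∈ L' u ↔ y ∈ L u ∧ (u = v ∨ ¬ R x y) := by
    intro u y
    simp only [L', Finset.mem_filter]
  have hsub : ∀ u, L' u ⊆ L u := fun u => Finset.filter_subset _ _
  refine ⟨L', ⟨hc.symm, ?_, ?_⟩, hmem, ?_, ?_, ?_⟩
  · intro u w huw a ha b hb b' hb' h1 h2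
    exact hc.mat u w huw a (hsub u ha) b (hsub w hb) b' (hsub w hb') h1 h2
  · intro u w huw hn a ha b hb
    exact hc.non u w huw hn a (hsub u ha) b (hsub w hb)
  · rintro T hvT ⟨f, hf1, hf2⟩
    refine ⟨Function.update f v x, ?_, ?_⟩
    · intro u hu
      by_cases huv : u = v
      · subst huv
        simpa using hx
      · rw [Function.update_of_ne huv]
        exact hsub u (hf1 u (Finset.mem_erase.2 ⟨huv, hu⟩))
    · intro u hu w hw huw
      by_cases huv : u = v
      · subst huv
        have hwu : w ≠ u := fun h => huw h.symm
        rw [Function.update_self, Function.update_of_ne hwu]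
        have h := ((hmem w (f w)).1 (hf1 w (Finset.mem_erase.2 ⟨hwu, hw⟩))).2
        rcases h with h | h
        · exact absurd h hwu
        · exact h
      · by_cases hwv : w = v
        · subst hwv
          rw [Function.update_self, Function.update_of_ne huv]
          have h := ((hmem u (f u)).1 (hf1 u (Finset.mem_erase.2 ⟨huv, hu⟩))).2
          rcases h with h | h
          · exact absurd h huv
          · exact fun h' => h (hc.symm _ _ h')
        · rw [Function.update_of_ne huv, Function.update_of_ne hwv]
          exact hf2 u (Finset.mem_erase.2 ⟨huv, hu⟩) w (Finset.mem_erase.2 ⟨hwv, hw⟩) huw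
  · intro u huv hadj
    ext y
    rw [hmem]
    constructor
    · exact fun h => h.1
    · intro hy
      exact ⟨hy, Or.inr (hc.non v u (fun h => huv h.symm) hadj x hx y hy)⟩
  · intro u huv
    have h1 : (L u) = L' u ∪ (L u).filter (fun y => ¬ (u = v ∨ ¬ R x y)) := by
      simp only [L']
      rw [Finset.filter_union_filter_not_eq]
    have h2 : ((L u).filter (fun y => ¬ (u = v ∨ ¬ R x y))).card ≤ 1 := by
      rw [Finset.card_le_one]
      intro a ha b hb
      rw [Finset.mem_filter] at ha hb
      have ha2 : R x a := by
        by_contra h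
        exact ha.2 (Or.inr h)
      have hb2 : R x b := by
        by_contra h
        exact hb.2 (Or.inr h)
      exact hc.mat v u (fun h => huv h.symm) x hx a ha.1 b hb.1 ha2 hb2
    calc (L u).card ≤ (L' u).card + ((L u).filter (fun y => ¬ (u = v ∨ ¬ R x y))).card := by
          conv_lhs => rw [h1]
          exact Finset.card_union_le _ _
      _ ≤ (L' u).card + 1 := by omega

end Pool.Agent.helper62.DP8
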